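import Pool.Agent.P8H18.RR.Stm

set_option autoImplicit false

/-!
# Project RR, package WAL
-/

namespace Pool.Agent.P8H55.RR

open Finset
open Pool.Agent.P8H18.RR

theorem ee_add (x y : ℝ) : ee (x + y) = ee x * ee y := by
  unfold ee
  rw [← Complex.exp_add]
  congr 1
  push_cast
  ring

theorem ee_zero : ee 0 = 1 := by unfold ee; simp

theorem prod_diff {ι : Type*} (s : Finset ι) (f g : ι → ℂ) (hf : ∀ i ∈ s, ‖f i‖ ≤ 1)
    (hg : ∀ i ∈ s, ‖g i‖ ≤ 1) : ‖∏ i ∈ s, f i - ∏ i ∈ s, g i‖ ≤ ∑ i ∈ s, ‖f i - g i‖ := by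
  classical
  induction s using Finset.induction_on with
  | empty => simp
  | insert a s ha ih =>
    rw [prod_insert ha, prod_insert ha, sum_insert ha]
    have h1 : f a * ∏ i ∈ s, f i - g a * ∏ i ∈ s, g i =
        (f a - g a) * ∏ i ∈ s, f i + g a * (∏ i ∈ s, f i - ∏ i ∈ s, g i) := by ring
    rw [h1]
    have h2 := ih (fun i hi => hf i (mem_insert_of_mem hi)) (fun i hi => hg i (mem_insert_of_mem hi))
    have h3 : ‖∏ i ∈ s, f i‖ ≤ 1 := by
      rw [norm_prod]
      exact prod_le_one (fun _ _ => norm_nonneg _) (fun i hi => hf i (mem_insert_of_mem hi))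
    have h4 := hg a (mem_insert_self a s)
    have h5 : ‖(f a - g a) * ∏ i ∈ s, f i‖ ≤ ‖f a - g a‖ := by
      rw [norm_mul]
      exact mul_le_of_le_one_right (norm_nonneg _) h3
    have h6 : ‖g a * (∏ i ∈ s, f i - ∏ i ∈ s, g i)‖ ≤ ∑ i ∈ s, ‖f i - g i‖ := by
      rw [norm_mul]
      exact (mul_le_of_le_one_left (norm_nonneg _) h4).trans h2
    exact (norm_add_le _ _).trans (add_le_add h5 h6)

/-- expansion of a product of trigonometric polynomials -/
theorem expand (P : Finset ℕ) (c : ℕ → ℤ → ℂ) (H : ℕ) {M : ℝ} (V : Finset ℕ) : ∀ G : ℕ → ℂ,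
    (∀ h : ℕ → ℤ, (∀ j ∈ V, |h j| ≤ (H : ℤ)) → (∀ j ∈ V, c j (h j) ≠ 0) →
      ‖∑ n ∈ P, G n * ee ((n : ℝ) * fr V h)‖ ≤ M) →
    ‖∑ n ∈ P, G n * ∏ j ∈ V, ∑ h ∈ Icc (-(H : ℤ)) H, c j h * ee ((h : ℝ) * n / 10 ^ (j + 1))‖ ≤
      (∏ j ∈ V, ∑ h ∈ Icc (-(H : ℤ)) H, ‖c j h‖) * M := by
  classical
  induction V using Finset.induction_on with
  | empty =>
    intro G hG
    have := hG (fun _ => 0) (by simp) (by simp)
    simpa [fr, ee_zero] using this
  | insert a V ha ih =>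
    intro G hG
    obtain ⟨T, hT⟩ : ∃ T : ℕ → ℂ, T = fun n : ℕ => ∏ j ∈ V, ∑ h ∈ Icc (-(H : ℤ)) H,
      c j h * ee ((h : ℝ) * n / 10 ^ (j + 1)) := ⟨_, rfl⟩
    have h1 : ∑ n ∈ P, G n * ∏ j ∈ insert a V, ∑ h ∈ Icc (-(H : ℤ)) H,
        c j h * ee ((h : ℝ) * n / 10 ^ (j + 1)) =
        ∑ h ∈ Icc (-(H : ℤ)) H, c a h * ∑ n ∈ P, (G n * ee ((h : ℝ) * n / 10 ^ (a + 1))) * T n := by
      simp_rw [mul_sum]
      rw [sum_comm]
      refine sum_congr rfl fun n _ => ?_
      rw [prod_insert ha, sum_mul, mul_sum, hT]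
      refine sum_congr rfl fun h _ => ?_
      ring
    rw [h1, prod_insert ha]
    refine (norm_sum_le _ _).trans ?_
    rw [mul_assoc, sum_mul]
    refine sum_le_sum fun h hh => ?_
    rw [norm_mul]
    by_cases hc : c a h = 0
    · rw [hc]; simp
    refine mul_le_mul_of_nonneg_left ?_ (norm_nonneg _)
    have h2 := ih (fun n => G n * ee ((h : ℝ) * n / 10 ^ (a + 1))) (by
      intro h' hb hne
      have h3 := hG (Function.update h' a h) (by
        intro j hj
        rcases mem_insert.1 hj with rfl | hj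
        · rw [Function.update_self]
          rw [mem_Icc] at hh
          exact abs_le.2 hh
        · have hja : j ≠ a := fun e => ha (e ▸ hj)
          rw [Function.update_of_ne hja]
          exact hb j hj) (by
        intro j hj
        rcases mem_insert.1 hj with rfl | hj
        · rw [Function.update_self]
          exact hc
        · have hja : j ≠ a := fun e => ha (e ▸ hj)
          rw [Function.update_of_ne hja]
          exact hne j hj)
      have h4 : fr (insert a V) (Function.update h' a h) = (h : ℝ) / 10 ^ (a + 1) + fr V h' := by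
        unfold fr
        rw [sum_insert ha, Function.update_self]
        congr 1
        refine sum_congr rfl fun j hj => ?_
        have hja : j ≠ a := fun e => ha (e ▸ hj)
        rw [Function.update_of_ne hja]
      rw [h4] at h3
      refine le_trans (le_of_eq ?_) h3
      congr 1
      refine sum_congr rfl fun n _ => ?_
      rw [mul_add, ee_add, mul_assoc]
      congr 3
      ring)
    rw [hT]
    exact h2

/-- the numbers -/
theorem numerics {c0 C0 C1 C2 : ℝ} (hc0 : 0 < c0) (hC0 : 0 < C0) (hC1 : 0 < C1) (hC2 : 0 < C2) :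
    ∃ C : ℝ, 0 < C ∧ ∃ L0 : ℕ, ∀ L : ℕ, L0 ≤ L →
      2 ≤ L ∧ 20 ≤ ⌊Real.exp (c0 * √(L : ℝ))⌋₊ ∧
      C2 * Real.log (⌊Real.exp (c0 * √(L : ℝ))⌋₊ : ℝ) ≤ L ∧
      (2 * L + 1 : ℝ) * (C2 * (2 * L + 1 : ℝ) * 10 ^ (2 * L + 1) / (⌊Real.exp (c0 * √(L : ℝ))⌋₊ : ℝ)) +
        Real.exp (c0 / 2 * √(L : ℝ)) * (C1 * (C0 * 10 ^ (2 * L + 1) * Real.exp (-(c0 * √(L : ℝ))) +
          √((10 : ℝ) ^ (2 * L + 1)) * (1 + Real.log ((10 : ℝ) ^ (2 * L + 1))))) ≤
        C * 10 ^ (2 * L + 1) * Real.exp (-(c0 / 8 * √(L : ℝ))) := by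
  refine ⟨18 * C2 * (384 / c0 ^ 4) + C1 * C0 + 28 * C1, by positivity,
    ⌈(20 / c0) ^ 2 + (C2 * c0) ^ 2 + c0 ^ 2 + 2⌉₊, fun L hL => ?_⟩
  have hL' : (20 / c0) ^ 2 + (C2 * c0) ^ 2 + c0 ^ 2 + 2 ≤ L := (Nat.le_ceil _).trans (by exact_mod_cast hL)
  obtain ⟨r, hr⟩ : ∃ r, r = √(L : ℝ) := ⟨_, rfl⟩
  have hLr : (L : ℝ) = r ^ 2 := by rw [hr, Real.sq_sqrt (Nat.cast_nonneg L)]
  have hr0 : 0 ≤ r := by rw [hr]; exact Real.sqrt_nonneg _
  rw [← hr]
  have q1 := sq_nonneg (20 / c0)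
  have q2 := sq_nonneg (C2 * c0)
  have q3 := sq_nonneg c0
  have r1 : 20 / c0 ≤ r := by
    have := Real.le_sqrt_of_sq_le (show (20 / c0) ^ 2 ≤ (L : ℝ) by linarith)
    rwa [← hr] at this
  have r2 : C2 * c0 ≤ r := by
    have := Real.le_sqrt_of_sq_le (show (C2 * c0) ^ 2 ≤ (L : ℝ) by linarith)
    rwa [← hr] at this
  have r3 : c0 ≤ r := by
    have := Real.le_sqrt_of_sq_le (show c0 ^ 2 ≤ (L : ℝ) by linarith)
    rwa [← hr] at this
  have hL2 : (2 : ℝ) ≤ L := by linarith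
  have hcr : 20 ≤ c0 * r := by
    rw [div_le_iff₀ hc0] at r1
    linarith
  have hexp : 21 ≤ Real.exp (c0 * r) := by
    have := Real.add_one_le_exp (c0 * r)
    linarith
  obtain ⟨H, hH⟩ : ∃ H, H = ⌊Real.exp (c0 * r)⌋₊ := ⟨_, rfl⟩
  rw [← hH]
  have hH1 : (H : ℝ) ≤ Real.exp (c0 * r) := by rw [hH]; exact Nat.floor_le (Real.exp_pos _).le
  have hH2 : Real.exp (c0 * r) < H + 1 := by rw [hH]; exact Nat.lt_floor_add_one _
  have hH20 : 20 ≤ H := by
    have h1 : (20 : ℝ) < H + 1 := by linarith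
    have h2 : 20 < H + 1 := by exact_mod_cast h1
    omega
  have hH0 : (0 : ℝ) < H := by
    have : 0 < H := by omega
    exact_mod_cast this
  obtain ⟨N, hN⟩ : ∃ N : ℝ, N = 10 ^ (2 * L + 1) := ⟨_, rfl⟩
  rw [← hN]
  have hN0 : 0 < N := by rw [hN]; positivity
  refine ⟨by exact_mod_cast hL2, hH20, ?_, ?_⟩
  · have h1 : Real.log H ≤ c0 * r := by
      have := Real.log_le_log hH0 hH1
      rwa [Real.log_exp] at this
    calc C2 * Real.log H ≤ C2 * (c0 * r) := mul_le_mul_of_nonneg_left h1 hC2.le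
      _ = (C2 * c0) * r := by ring
      _ ≤ r * r := mul_le_mul_of_nonneg_right r2 hr0
      _ = L := by rw [hLr]; ring
  · have t1 : (2 * L + 1 : ℝ) * (C2 * (2 * L + 1 : ℝ) * N / H) ≤
        18 * C2 * (384 / c0 ^ 4) * N * Real.exp (-(c0 / 8 * r)) := by
      have e1 : 1 / (H : ℝ) ≤ 2 * Real.exp (-(c0 * r)) := by
        rw [Real.exp_neg, div_le_iff₀ hH0]
        have : Real.exp (c0 * r) ≤ 2 * H := by linarith
        have hpos := Real.exp_pos (c0 * r)
        calc (1 : ℝ) = (Real.exp (c0 * r))⁻¹ * Real.exp (c0 * r) := by field_simp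
          _ ≤ (Real.exp (c0 * r))⁻¹ * (2 * H) := mul_le_mul_of_nonneg_left this (by positivity)
          _ = _ := by ring
      have e2 : (2 * L + 1 : ℝ) ≤ 3 * r ^ 2 := by rw [← hLr]; linarith
      have e3 : r ^ 4 ≤ 384 / c0 ^ 4 * Real.exp (c0 / 2 * r) := by
        have h1 := Real.pow_div_factorial_le_exp (c0 / 2 * r) (by positivity) 4
        have h2 : ((4 : ℕ).factorial : ℝ) = 24 := by norm_num [Nat.factorial]
        rw [h2] at h1
        have h3 : r ^ 4 = 384 / c0 ^ 4 * ((c0 / 2 * r) ^ 4 / 24) := by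
          field_simp
          ring
        rw [h3]
        exact mul_le_mul_of_nonneg_left h1 (by positivity)
      have e4 : (2 * L + 1 : ℝ) * (2 * L + 1 : ℝ) ≤ 9 * r ^ 4 := by
        have : (0 : ℝ) ≤ 2 * L + 1 := by positivity
        calc (2 * L + 1 : ℝ) * (2 * L + 1 : ℝ) ≤ (3 * r ^ 2) * (3 * r ^ 2) := mul_le_mul e2 e2 this (by positivity)
          _ = 9 * r ^ 4 := by ring
      have e5 : Real.exp (c0 / 2 * r) * Real.exp (-(c0 * r)) ≤ Real.exp (-(c0 / 8 * r)) := by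
        rw [← Real.exp_add]
        apply Real.exp_le_exp.2
        nlinarith
      calc (2 * L + 1 : ℝ) * (C2 * (2 * L + 1 : ℝ) * N / H) =
            C2 * N * ((2 * L + 1 : ℝ) * (2 * L + 1 : ℝ)) * (1 / H) := by ring
        _ ≤ C2 * N * (9 * r ^ 4) * (2 * Real.exp (-(c0 * r))) := by gcongr
        _ = 18 * C2 * N * (r ^ 4 * Real.exp (-(c0 * r))) := by ring
        _ ≤ 18 * C2 * N * ((384 / c0 ^ 4 * Real.exp (c0 / 2 * r)) * Real.exp (-(c0 * r))) := by gcongr
        _ = 18 * C2 * (384 / c0 ^ 4) * N * (Real.exp (c0 / 2 * r) * Real.exp (-(c0 * r))) := by ring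
        _ ≤ _ := by gcongr
    have t2 : Real.exp (c0 / 2 * r) * (C1 * (C0 * N * Real.exp (-(c0 * r)))) ≤
        C1 * C0 * N * Real.exp (-(c0 / 8 * r)) := by
      have e5 : Real.exp (c0 / 2 * r) * Real.exp (-(c0 * r)) ≤ Real.exp (-(c0 / 8 * r)) := by
        rw [← Real.exp_add]
        apply Real.exp_le_exp.2
        nlinarith
      calc Real.exp (c0 / 2 * r) * (C1 * (C0 * N * Real.exp (-(c0 * r)))) =
          C1 * C0 * N * (Real.exp (c0 / 2 * r) * Real.exp (-(c0 * r))) := by ring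
        _ ≤ _ := by gcongr
    have t3 : Real.exp (c0 / 2 * r) * (C1 * (√N * (1 + Real.log N))) ≤
        28 * C1 * N * Real.exp (-(c0 / 8 * r)) := by
      have e1 : 1 + Real.log N ≤ 28 * Real.exp L := by
        have h1 : Real.log N = (2 * L + 1 : ℝ) * Real.log 10 := by
          rw [hN, Real.log_pow]
          push_cast
          ring
        have h2 : Real.log 10 ≤ 9 := by
          have := Real.log_le_sub_one_of_pos (show (0 : ℝ) < 10 by norm_num)
          linarith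
        have h3 : (2 * L + 1 : ℝ) * Real.log 10 ≤ (2 * L + 1 : ℝ) * 9 :=
          mul_le_mul_of_nonneg_left h2 (by positivity)
        have h4 := Real.add_one_le_exp (L : ℝ)
        rw [h1]
        linarith
      have e2 : Real.exp (2 * L) ≤ √N := by
        apply Real.le_sqrt_of_sq_le
        have h1 : Real.exp (2 * L) ^ 2 = (Real.exp 1 ^ 4) ^ L := by
          rw [← Real.exp_nat_mul, ← pow_mul, ← Real.exp_nat_mul]
          congr 1
          push_cast
          ring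
        have h2 : Real.exp 1 ^ 4 ≤ 100 := by
          have := Real.exp_one_lt_d9
          have h3 : Real.exp 1 ≤ 3 := by linarith
          calc Real.exp 1 ^ 4 ≤ 3 ^ 4 := pow_le_pow_left₀ (Real.exp_pos _).le h3 4
            _ ≤ 100 := by norm_num
        rw [h1, hN]
        calc (Real.exp 1 ^ 4) ^ L ≤ 100 ^ L := pow_le_pow_left₀ (by positivity) h2 L
          _ = 10 ^ (2 * L) := by rw [pow_mul]; norm_num
          _ ≤ 10 ^ (2 * L + 1) := pow_le_pow_right₀ (by norm_num) (by omega)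
      have e3 : √N * √N = N := Real.mul_self_sqrt hN0.le
      have e4 : Real.exp (c0 / 2 * r) = Real.exp (5 / 8 * c0 * r) * Real.exp (-(c0 / 8 * r)) := by
        rw [← Real.exp_add]
        congr 1
        ring
      have e5 : Real.exp (5 / 8 * c0 * r) ≤ Real.exp L := by
        apply Real.exp_le_exp.2
        rw [hLr]
        nlinarith
      have e6 : Real.exp (5 / 8 * c0 * r) * (1 + Real.log N) ≤ 28 * √N := by
        have h0 : 0 ≤ 1 + Real.log N := by
          have : 0 ≤ Real.log N := by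
            apply Real.log_nonneg
            rw [hN]
            exact one_le_pow₀ (by norm_num)
          linarith
        calc Real.exp (5 / 8 * c0 * r) * (1 + Real.log N) ≤ Real.exp L * (28 * Real.exp L) :=
              mul_le_mul e5 e1 h0 (Real.exp_pos _).le
          _ = 28 * (Real.exp L * Real.exp L) := by ring
          _ = 28 * Real.exp (2 * L) := by rw [← Real.exp_add]; ring_nf
          _ ≤ 28 * √N := by gcongr
      have e7 : 0 ≤ √N := Real.sqrt_nonneg _
      calc Real.exp (c0 / 2 * r) * (C1 * (√N * (1 + Real.log N))) =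
          C1 * √N * Real.exp (-(c0 / 8 * r)) * (Real.exp (5 / 8 * c0 * r) * (1 + Real.log N)) := by
            rw [e4]; ring
        _ ≤ C1 * √N * Real.exp (-(c0 / 8 * r)) * (28 * √N) :=
            mul_le_mul_of_nonneg_left e6 (by positivity)
        _ = 28 * C1 * (√N * √N) * Real.exp (-(c0 / 8 * r)) := by ring
        _ = _ := by rw [e3]
    calc (2 * L + 1 : ℝ) * (C2 * (2 * L + 1 : ℝ) * N / H) +
          Real.exp (c0 / 2 * r) * (C1 * (C0 * N * Real.exp (-(c0 * r)) + √N * (1 + Real.log N))) =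
          (2 * L + 1 : ℝ) * (C2 * (2 * L + 1 : ℝ) * N / H) +
          Real.exp (c0 / 2 * r) * (C1 * (C0 * N * Real.exp (-(c0 * r)))) +
          Real.exp (c0 / 2 * r) * (C1 * (√N * (1 + Real.log N))) := by ring
      _ ≤ 18 * C2 * (384 / c0 ^ 4) * N * Real.exp (-(c0 / 8 * r)) +
          C1 * C0 * N * Real.exp (-(c0 / 8 * r)) + 28 * C1 * N * Real.exp (-(c0 / 8 * r)) :=
          add_le_add (add_le_add t1 t2) t3
      _ = _ := by ring

theorem wal : S_EXP → S_PRI → S_DIG → S_WAL := by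
  classical
  rintro ⟨c0, C0, hc0, hC0, L1, hE⟩ ⟨C1, hC1, hP⟩ ⟨C2, hC2, hD⟩
  obtain ⟨C, hC, L2, hnum⟩ := numerics hc0 hC0 hC1 hC2
  refine ⟨c0 / 8, C, by positivity, hC, max L1 L2, fun L hL S hSne hSL hScard d d' e f hd hd' he hf => ?_⟩
  obtain ⟨hL2, hH20, hlogH, hfin⟩ := hnum L ((le_max_right _ _).trans hL)
  have hE' := hE L ((le_max_left _ _).trans hL)
  have hH1 : ((⌊Real.exp (c0 * √(L : ℝ))⌋₊ : ℕ) : ℝ) ≤ Real.exp (c0 * √(L : ℝ)) :=
    Nat.floor_le (Real.exp_pos _).le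
  obtain ⟨H, hH⟩ : ∃ H, H = ⌊Real.exp (c0 * √(L : ℝ))⌋₊ := ⟨_, rfl⟩
  rw [← hH] at hH20 hlogH hfin hH1
  have hH0 : (0 : ℝ) < H := by
    have : 0 < H := by omega
    exact_mod_cast this
  have hS1 : ∀ i ∈ S, 0 < i ∧ i < L := fun i hi => by
    have := hSL hi
    rwa [mem_Ioo] at this
  -- the digits
  obtain ⟨δ, hδ⟩ : ∃ δ : ℕ → ℕ, δ = fun j => if j = 0 then e else if j = 2 * L then f else
    if j < L then d j else d' (2 * L - j) := ⟨_, rfl⟩
  have hδ10 : ∀ j, δ j < 10 := by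
    intro j
    rw [hδ]
    simp only
    split_ifs
    · exact he
    · exact hf
    · exact hd _
    · exact hd' _
  have hcc : ∀ j : ℕ, ∃ c : ℤ → ℂ, j < 2 * L + 1 → (c 0 = 1 / 10 ∧
      (∀ h : ℤ, (10 : ℤ) ∣ h → h ≠ 0 → c h = 0) ∧
      ∑ h ∈ Icc (-(H : ℤ)) H, ‖c h‖ ≤ C2 * Real.log H ∧
      (∀ n : ℕ, ‖tp c H j n‖ ≤ 1) ∧ (∀ n : ℕ, ‖tp c H j n - 1 / 10‖ ≤ 1) ∧
      ∑ n ∈ range (10 ^ (2 * L + 1)), ‖(if dig n j = δ j then (1 : ℂ) else 0) - tp c H j n‖ ≤
        C2 * (2 * L + 1 : ℕ) * 10 ^ (2 * L + 1) / H) := by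
    intro j
    by_cases hj : j < 2 * L + 1
    · obtain ⟨c, hc⟩ := hD (2 * L + 1) j (δ j) H hj (hδ10 j) hH20
      exact ⟨c, fun _ => hc⟩
    · exact ⟨0, fun h => absurd h hj⟩
  choose cc hcc using hcc
  -- the functions
  obtain ⟨μ, hμ⟩ : ∃ μ : ℕ → ℂ, μ = fun j => if j = 0 ∨ j = 2 * L then 0 else 1 / 10 := ⟨_, rfl⟩
  obtain ⟨F, hF⟩ : ∃ F : ℕ → ℕ → ℂ, F = fun j n => (if dig n j = δ j then (1 : ℂ) else 0) - μ j :=
    ⟨_, rfl⟩
  obtain ⟨cp, hcp⟩ : ∃ cp : ℕ → ℤ → ℂ, cp = fun j h => if h = 0 then cc j h - μ j else cc j h :=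
    ⟨_, rfl⟩
  obtain ⟨A, hA⟩ : ∃ A : ℕ → ℕ → ℂ, A = fun (j n : ℕ) => ∑ h ∈ Icc (-(H : ℤ)) H,
    cp j h * ee ((h : ℝ) * n / 10 ^ (j + 1)) := ⟨_, rfl⟩
  have hA1 : ∀ j n, A j n = tp (cc j) H j n - μ j := by
    intro j n
    have h0 : (0 : ℤ) ∈ Icc (-(H : ℤ)) H := by
      rw [mem_Icc]; constructor <;> omega
    rw [hA]
    simp only
    unfold tp
    rw [← add_sum_erase _ _ h0, ← add_sum_erase (Icc (-(H : ℤ)) H) (fun h => cc j h * ee ((h : ℝ) * n / 10 ^ (j + 1))) h0]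
    have h1 : ∑ h ∈ (Icc (-(H : ℤ)) H).erase 0, cp j h * ee ((h : ℝ) * n / 10 ^ (j + 1)) =
        ∑ h ∈ (Icc (-(H : ℤ)) H).erase 0, cc j h * ee ((h : ℝ) * n / 10 ^ (j + 1)) := by
      refine sum_congr rfl fun h hh => ?_
      rw [hcp]
      simp only
      rw [if_neg (mem_erase.1 hh).1]
    have h2 : ee (((0 : ℤ) : ℝ) * n / 10 ^ (j + 1)) = 1 := by
      rw [Int.cast_zero, zero_mul, zero_div, ee_zero]
    rw [h1, h2, hcp]
    simp only [if_true]
    ring
  have hFA : ∀ j n, F j n - A j n = (if dig n j = δ j then (1 : ℂ) else 0) - tp (cc j) H j n := by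
    intro j n
    rw [hA1, hF]
    simp only
    ring
  have hFle : ∀ j n, ‖F j n‖ ≤ 1 := by
    intro j n
    rw [hF, hμ]
    simp only
    split_ifs <;> norm_num
  have hAle : ∀ j < 2 * L + 1, ∀ n, ‖A j n‖ ≤ 1 := by
    intro j hj n
    rw [hA1, hμ]
    simp only
    split_ifs
    · rw [sub_zero]; exact (hcc j hj).2.2.2.1 n
    · exact (hcc j hj).2.2.2.2.1 n
  have hcple : ∀ j < 2 * L + 1, ∑ h ∈ Icc (-(H : ℤ)) H, ‖cp j h‖ ≤ L := by
    intro j hj
    refine le_trans (sum_le_sum fun h _ => ?_) ((hcc j hj).2.2.1.trans hlogH)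
    rw [hcp]
    simp only
    split_ifs with h0
    · rw [h0, (hcc j hj).1, hμ]
      simp only
      split_ifs <;> norm_num
    · exact le_rfl
  -- the positions
  obtain ⟨U, hU⟩ : ∃ U : Finset ℕ, U = insert 0 (insert (2 * L) (S ∪ S.image (fun i => 2 * L - i))) :=
    ⟨_, rfl⟩
  have hUsub : U ⊆ range (2 * L + 1) := by
    intro j hj
    rw [hU, mem_insert, mem_insert, mem_union, mem_image] at hj
    rw [mem_range]
    rcases hj with h | h | h | ⟨i, hi, h⟩
    · omega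
    · omega
    · have := hS1 j h; omega
    · omega
  have hUc : U.card ≤ 4 * S.card := by
    have h1 : U.card ≤ (S ∪ S.image (fun i => 2 * L - i)).card + 1 + 1 := by
      rw [hU]
      exact (card_insert_le _ _).trans (Nat.add_le_add_right (card_insert_le _ _) 1)
    have h2 := card_union_le S (S.image (fun i => 2 * L - i))
    have h3 := card_image_le (s := S) (f := fun i => 2 * L - i)
    have h4 := hSne.card_pos
    omega
  have hlogL : 0 < Real.log L := Real.log_pos (by exact_mod_cast (by omega : 1 < L))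
  have hUc2 : (U.card : ℝ) * Real.log L ≤ c0 / 2 * √(L : ℝ) := by
    have h1 : (U.card : ℝ) ≤ 4 * S.card := by exact_mod_cast hUc
    rw [le_div_iff₀ hlogL] at hScard
    calc (U.card : ℝ) * Real.log L ≤ (4 * S.card) * Real.log L := mul_le_mul_of_nonneg_right h1 hlogL.le
      _ = 4 * (S.card * Real.log L) := by ring
      _ ≤ 4 * (c0 / 8 * √(L : ℝ)) := by linarith
      _ = _ := by ring
  have hUc3 : (U.card : ℝ) ≤ c0 * √(L : ℝ) / Real.log L := by
    rw [le_div_iff₀ hlogL]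
    refine hUc2.trans ?_
    have : 0 ≤ c0 * √(L : ℝ) := by positivity
    linarith
  -- the sum as a sum over all primes
  obtain ⟨P, hPd⟩ : ∃ P : Finset ℕ, P = (range (10 ^ (2 * L + 1))).filter Nat.Prime := ⟨_, rfl⟩
  have hprod : ∀ n, ∏ j ∈ U, F j n = (if dig n 0 = e then (1 : ℂ) else 0) *
      ((if dig n (2 * L) = f then (1 : ℂ) else 0) *
      ∏ i ∈ S, (((if dig n i = d i then (1 : ℂ) else 0) - 1 / 10) *
        ((if dig n (2 * L - i) = d' i then (1 : ℂ) else 0) - 1 / 10))) := by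
    intro n
    have d1 : Disjoint S (S.image (fun i => 2 * L - i)) := by
      rw [Finset.disjoint_left]
      intro j hj hj2
      rw [mem_image] at hj2
      obtain ⟨i, hi, h⟩ := hj2
      have := hS1 j hj
      have := hS1 i hi
      omega
    have d2 : 2 * L ∉ S ∪ S.image (fun i => 2 * L - i) := by
      rw [mem_union, mem_image]
      rintro (h | ⟨i, hi, h⟩)
      · have := hS1 _ h; omega
      · have := hS1 i hi; omega
    have d3 : 0 ∉ insert (2 * L) (S ∪ S.image (fun i => 2 * L - i)) := by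
      rw [mem_insert, mem_union, mem_image]
      rintro (h | h | ⟨i, hi, h⟩)
      · omega
      · have := hS1 _ h; omega
      · have := hS1 i hi; omega
    have d4 : Set.InjOn (fun i => 2 * L - i) (S : Set ℕ) := by
      intro i hi j hj h
      have := hS1 i hi
      have := hS1 j hj
      simp only at h
      omega
    rw [hU, prod_insert d3, prod_insert d2, prod_union d1, prod_image d4, ← prod_mul_distrib]
    have f0 : F 0 n = if dig n 0 = e then (1 : ℂ) else 0 := by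
      rw [hF, hδ, hμ]
      simp
    have f1 : F (2 * L) n = if dig n (2 * L) = f then (1 : ℂ) else 0 := by
      have h0 : L ≠ 0 := by omega
      rw [hF, hδ, hμ]
      simp [h0]
    rw [f0, f1]
    congr 2
    refine prod_congr rfl fun i hi => ?_
    have hi' := hS1 i hi
    have g1 : δ i = d i := by
      rw [hδ]
      simp only
      rw [if_neg (by omega : ¬ i = 0), if_neg (by omega : ¬ i = 2 * L), if_pos hi'.2]
    have g2 : μ i = 1 / 10 := by
      rw [hμ]
      simp only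
      rw [if_neg (by omega : ¬ (i = 0 ∨ i = 2 * L))]
    have g3 : δ (2 * L - i) = d' i := by
      rw [hδ]
      simp only
      rw [if_neg (by omega : ¬ 2 * L - i = 0), if_neg (by omega : ¬ 2 * L - i = 2 * L),
        if_neg (by omega : ¬ 2 * L - i < L), show 2 * L - (2 * L - i) = i by omega]
    have g4 : μ (2 * L - i) = 1 / 10 := by
      rw [hμ]
      simp only
      rw [if_neg (by omega : ¬ (2 * L - i = 0 ∨ 2 * L - i = 2 * L))]
    have f2 : F i n = (if dig n i = d i then (1 : ℂ) else 0) - 1 / 10 := by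
      rw [hF]
      simp only
      rw [g1, g2]
    have f3 : F (2 * L - i) n = (if dig n (2 * L - i) = d' i then (1 : ℂ) else 0) - 1 / 10 := by
      rw [hF]
      simp only
      rw [g3, g4]
    rw [f2, f3]
  have hsum : ((∑ n ∈ (range (10 ^ (2 * L + 1))).filter
      (fun n => n.Prime ∧ dig n 0 = e ∧ dig n (2 * L) = f),
      ∏ i ∈ S, (((if dig n i = d i then (1 : ℝ) else 0) - 1 / 10) *
        ((if dig n (2 * L - i) = d' i then (1 : ℝ) else 0) - 1 / 10)) : ℝ) : ℂ) =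
      ∑ n ∈ P, ∏ j ∈ U, F j n := by
    have e1 : (range (10 ^ (2 * L + 1))).filter
        (fun n => n.Prime ∧ dig n 0 = e ∧ dig n (2 * L) = f) =
        P.filter (fun n => dig n 0 = e ∧ dig n (2 * L) = f) := by
      rw [hPd, filter_filter]
    rw [e1, sum_filter, Complex.ofReal_sum]
    refine sum_congr rfl fun n _ => ?_
    rw [hprod]
    by_cases h1 : dig n 0 = e
    · by_cases h2 : dig n (2 * L) = f
      · rw [if_pos ⟨h1, h2⟩, if_pos h1, if_pos h2, one_mul, one_mul, Complex.ofReal_prod]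
        refine prod_congr rfl fun i _ => ?_
        rw [Complex.ofReal_mul, Complex.ofReal_sub, Complex.ofReal_sub]
        congr 2
        · split_ifs <;> simp
        · simp
        · split_ifs <;> simp
        · simp
      · rw [if_neg (fun h => h2 h.2), if_neg h2]; simp
    · rw [if_neg (fun h => h1 h.1), if_neg h1]; simp
  rw [← Real.norm_eq_abs, ← Complex.norm_real, hsum]
  -- approximation
  have hdiff : ‖∑ n ∈ P, ∏ j ∈ U, F j n - ∑ n ∈ P, ∏ j ∈ U, A j n‖ ≤
      (2 * L + 1 : ℝ) * (C2 * (2 * L + 1 : ℝ) * 10 ^ (2 * L + 1) / H) := by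
    rw [← sum_sub_distrib]
    refine (norm_sum_le _ _).trans ?_
    have h1 : ∀ n ∈ P, ‖∏ j ∈ U, F j n - ∏ j ∈ U, A j n‖ ≤
        ∑ j ∈ U, ‖(if dig n j = δ j then (1 : ℂ) else 0) - tp (cc j) H j n‖ := by
      intro n _
      refine (prod_diff U (fun j => F j n) (fun j => A j n) (fun j _ => hFle j n)
        (fun j hj => hAle j (mem_range.1 (hUsub hj)) n)).trans (le_of_eq ?_)
      exact sum_congr rfl fun j _ => by rw [hFA]
    refine (sum_le_sum h1).trans ?_
    rw [sum_comm]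
    have h2 : ∀ j ∈ U, ∑ n ∈ P, ‖(if dig n j = δ j then (1 : ℂ) else 0) - tp (cc j) H j n‖ ≤
        C2 * (2 * L + 1 : ℝ) * 10 ^ (2 * L + 1) / H := by
      intro j hj
      have h3 := (hcc j (mem_range.1 (hUsub hj))).2.2.2.2.2
      push_cast at h3
      refine le_trans (sum_le_sum_of_subset_of_nonneg ?_ fun _ _ _ => norm_nonneg _) h3
      rw [hPd]
      exact filter_subset _ _
    refine (sum_le_card_nsmul _ _ _ h2).trans ?_
    rw [nsmul_eq_mul]
    refine mul_le_mul_of_nonneg_right ?_ (by positivity)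
    have h3 := card_le_card hUsub
    rw [card_range] at h3
    exact_mod_cast h3
  -- expansion
  have hexp := expand P cp H (M := C1 * (C0 * 10 ^ (2 * L + 1) * Real.exp (-(c0 * √(L : ℝ))) +
      √((10 : ℝ) ^ (2 * L + 1)) * (1 + Real.log ((10 : ℝ) ^ (2 * L + 1))))) U (fun _ => 1) (by
    intro h hb hne
    have h1 := hE' U h hUsub hUc3 (by
      intro i hi
      have h2 : ((|h i| : ℤ) : ℝ) ≤ ((H : ℤ) : ℝ) := by exact_mod_cast hb i hi
      rw [Int.cast_abs, Int.cast_natCast] at h2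
      exact h2.trans hH1) (by
      intro i hi h0 h2L hdvd
      apply hne i hi
      rw [hcp]
      simp only
      by_cases hz : h i = 0
      · rw [if_pos hz, hz, (hcc i (mem_range.1 (hUsub hi))).1, hμ]
        simp only
        rw [if_neg (by tauto), sub_self]
      · rw [if_neg hz]
        exact (hcc i (mem_range.1 (hUsub hi))).2.1 _ hdvd hz) (by
      obtain ⟨i, hi⟩ := hSne
      refine ⟨i, ?_, (hS1 i hi).1, (hS1 i hi).2⟩
      rw [hU]
      exact mem_insert_of_mem (mem_insert_of_mem (mem_union_left _ hi)))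
    have h2 := hP (10 ^ (2 * L + 1)) (Nat.one_le_pow _ _ (by norm_num)) (fr U h)
      (C0 * 10 ^ (2 * L + 1) * Real.exp (-(c0 * √(L : ℝ)))) (by positivity) h1
      (10 ^ (2 * L + 1) - 1) (Nat.sub_le _ _)
    push_cast at h2
    refine le_trans (le_of_eq ?_) h2
    congr 1
    have h3 : P = (Icc 1 (10 ^ (2 * L + 1) - 1)).filter Nat.Prime := by
      rw [hPd]
      ext n
      rw [mem_filter, mem_filter, mem_range, mem_Icc]
      constructor
      · rintro ⟨h4, h5⟩
        have := h5.pos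
        exact ⟨⟨by omega, by omega⟩, h5⟩
      · rintro ⟨h4, h5⟩
        have : 0 < 10 ^ (2 * L + 1) := by positivity
        exact ⟨by omega, h5⟩
    rw [h3]
    exact sum_congr rfl fun n _ => one_mul _)
  have hM0 : 0 ≤ C1 * (C0 * 10 ^ (2 * L + 1) * Real.exp (-(c0 * √(L : ℝ))) +
      √((10 : ℝ) ^ (2 * L + 1)) * (1 + Real.log ((10 : ℝ) ^ (2 * L + 1)))) := by
    have : 0 ≤ Real.log ((10 : ℝ) ^ (2 * L + 1)) := Real.log_nonneg (one_le_pow₀ (by norm_num))
    positivity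
  have hprodc : ∏ j ∈ U, ∑ h ∈ Icc (-(H : ℤ)) H, ‖cp j h‖ ≤ Real.exp (c0 / 2 * √(L : ℝ)) := by
    calc ∏ j ∈ U, ∑ h ∈ Icc (-(H : ℤ)) H, ‖cp j h‖ ≤ ∏ _j ∈ U, (L : ℝ) :=
          prod_le_prod (fun _ _ => sum_nonneg fun _ _ => norm_nonneg _)
            (fun j hj => hcple j (mem_range.1 (hUsub hj)))
      _ = (L : ℝ) ^ U.card := by rw [prod_const]
      _ = Real.exp (U.card * Real.log L) := by
          rw [Real.exp_nat_mul, Real.exp_log (by exact_mod_cast (by omega : 0 < L))]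
      _ ≤ _ := Real.exp_le_exp.2 hUc2
  have hmain : ‖∑ n ∈ P, ∏ j ∈ U, A j n‖ ≤ Real.exp (c0 / 2 * √(L : ℝ)) *
      (C1 * (C0 * 10 ^ (2 * L + 1) * Real.exp (-(c0 * √(L : ℝ))) +
      √((10 : ℝ) ^ (2 * L + 1)) * (1 + Real.log ((10 : ℝ) ^ (2 * L + 1))))) := by
    refine le_trans (le_of_eq ?_) (hexp.trans (mul_le_mul_of_nonneg_right hprodc hM0))
    congr 1
    refine sum_congr rfl fun n _ => ?_
    rw [one_mul, hA]
  refine le_trans ?_ hfin
  calc ‖∑ n ∈ P, ∏ j ∈ U, F j n‖ = ‖(∑ n ∈ P, ∏ j ∈ U, F j n - ∑ n ∈ P, ∏ j ∈ U, A j n) +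
        ∑ n ∈ P, ∏ j ∈ U, A j n‖ := by rw [sub_add_cancel]
    _ ≤ _ := (norm_add_le _ _).trans (add_le_add hdiff hmain)

end Pool.Agent.P8H55.RR
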